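import Pool.Agent.H412.TH.All

/-!
MP_0219da: trace-positive noncommutative polynomials and the free skew field.

Q1 has a negative answer for every number `g ≥ 2` of variables (and a positive one for `g = 1`).

Idea of the proof. Let `G` be a group which is not hyperlinear. A quantitative form of this property
gives a homogeneous polynomial `p` which is trace-positive and has a tuple `a` of self-adjoint
elements in a matrix algebra over the group algebra of `G` with `τ(p(a)) < 0`, `τ` the canonical
trace. If `p = ∑ r^* r + ∑ [s,t]` with noncommutative rational functions, then all of them
are entries of the inverse of one linear pencil `Q`. By a formal perturbation (a block Toeplitz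
pencil, the noncommutative rank and a decomposition of graded pencils into irreducible ones) there are
a tuple `X'` of self-adjoint matrices of Laurent series in a central variable with leading part
`a ⊕ 0` and a power `z` of that variable such that `Q(z X')` is invertible. So all the rational
functions can be evaluated at `z X'`, and the identity holds there. The lowest coefficient of
the trace of the left hand side is a positive multiple of `τ(p(a)) < 0`, the lowest coefficient of the
trace of a sum of squares is positive: a contradiction.
-/

set_option autoImplicit false

namespace Pool.Agent.Results.MP_0219da_al.TracePosNotSOS

open Pool.Agent.H412.TH

/-- For `g = 1` every trace-positive polynomial is a sum of squares and commutators in the free skew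
field. For every `g ≥ 2` there is a trace-positive polynomial `p = p^*` in `g` noncommuting
variables which is not a sum of squares plus a sum of commutators in the free skew field. -/
theorem result : (∀ p : FreeAlgebra ℝ (Fin 1), TracePos p → Cert p) ∧
    ∀ g : ℕ, 2 ≤ g → ∃ p : FreeAlgebra ℝ (Fin g), star p = p ∧ TracePos p ∧ ¬ Cert p :=
  all

end Pool.Agent.Results.MP_0219da_al.TracePosNotSOS
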